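import Pool.Agent.Helper2.RG.St

/-!
# Project RG (MP_76188c_nt), module CONJ (helper45)

Conjugation of inertia and decomposition groups; `Dec P` is closed.
-/

open scoped Pointwise NumberField
open NumberField Pool.RG

namespace Pool.Agent.Helper45.RG

theorem conj_op (x : 𝓞 Qb) (A : Set (𝓞 Qb)) : IsOpen {g : GQ | g • x ∈ A} := by
  have : Algebra.IsAlgebraic ℚ Qb := AlgebraicClosure.isAlgebraic ℚ
  have : Algebra.IsIntegral ℚ Qb := Algebra.IsAlgebraic.isIntegral
  rw [isOpen_iff_mem_nhds]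
  intro g0 hg0
  have h1 : IsOpen ((fun g : GQ => g0⁻¹ * g) ⁻¹' (MulAction.stabilizer GQ (x : Qb) : Set GQ)) :=
    (stabilizer_isOpen_of_isIntegral (x : Qb)).preimage (continuous_const_mul _)
  refine Filter.mem_of_superset (h1.mem_nhds ?_) ?_
  · simp
  · intro g hg
    have h2 : (g0⁻¹ * g) • (x : Qb) = x := hg
    have h3 : g • (x : Qb) = g0 • (x : Qb) := by
      rw [mul_smul] at h2
      exact (inv_smul_eq_iff.mp h2)
    have h4 : g • x = g0 • x := Subtype.ext h3
    change g • x ∈ A
    rw [h4]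
    exact hg0

theorem conj_cl (x : 𝓞 Qb) (A : Set (𝓞 Qb)) : IsClosed {g : GQ | g • x ∈ A} := by
  rw [← isOpen_compl_iff]
  exact conj_op x Aᶜ

theorem tConj : StConj := by
  intro P
  refine ⟨?_, ?_, ?_, ?_, ?_⟩
  · intro g x hx y
    change (g * x * g⁻¹) • y - y ∈ g • P
    rw [Ideal.mem_pointwise_smul_iff_inv_smul_mem, smul_sub, mul_smul, mul_smul, inv_smul_smul]
    exact hx (g⁻¹ • y)
  · intro g x hx
    have hx' : x • P = P := hx
    change (g * x * g⁻¹) • (g • P) = g • P
    rw [mul_smul, mul_smul, inv_smul_smul, hx']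
  · intro l S g hP
    obtain ⟨hm, hl, hS⟩ := hP
    have hnat : ∀ n : ℕ, (n : 𝓞 Qb) ∈ g • P ↔ (n : 𝓞 Qb) ∈ P := by
      intro n
      rw [Ideal.mem_pointwise_smul_iff_inv_smul_mem]
      have h : g⁻¹ • (n : 𝓞 Qb) = (n : 𝓞 Qb) :=
        map_natCast (MulSemiringAction.toRingHom GQ (𝓞 Qb) g⁻¹) n
      rw [h]
    refine ⟨?_, fun h => hl ((hnat l).mp h), fun p hp h => hS p hp ((hnat p).mp h)⟩
    rw [Ideal.pointwise_smul_eq_comap]
    have hsurj : Function.Surjective (MulSemiringAction.toRingEquiv GQ (𝓞 Qb) g).symm :=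
      (MulSemiringAction.toRingEquiv GQ (𝓞 Qb) g).symm.surjective
    exact Ideal.comap_isMaximal_of_surjective _ hsurj
  · exact Ideal.inertia_le_stabilizer P
  · have h : (Dec P : Set GQ) = ⋂ x : 𝓞 Qb, {g : GQ | x ∈ P ↔ g • x ∈ P} := by
      ext g
      simp only [Set.mem_iInter, Set.mem_ofPred_eq]
      constructor
      · intro hg x
        have hg' : g • P = P := hg
        constructor
        · intro hx
          have := (Ideal.smul_mem_pointwise_smul_iff (a := g) (S := P) (x := x)).mpr hx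
          rwa [hg'] at this
        · intro hx
          refine (Ideal.smul_mem_pointwise_smul_iff (a := g) (S := P) (x := x)).mp ?_
          rwa [hg']
      · intro hg
        change g • P = P
        ext y
        rw [Ideal.mem_pointwise_smul_iff_inv_smul_mem, hg (g⁻¹ • y), smul_inv_smul]
    rw [h]
    refine isClosed_iInter fun x => ?_
    by_cases hx : x ∈ P
    · have : {g : GQ | x ∈ P ↔ g • x ∈ P} = {g : GQ | g • x ∈ (P : Set (𝓞 Qb))} := by
        ext g
        simp [hx]
      rw [this]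
      exact conj_cl x _
    · have : {g : GQ | x ∈ P ↔ g • x ∈ P} = {g : GQ | g • x ∈ (P : Set (𝓞 Qb))ᶜ} := by
        ext g
        simp [hx]
      rw [this]
      exact conj_cl x _

end Pool.Agent.Helper45.RG
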